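import Pool.Agent.H36.ENR.Stmts2

/-! Project ENR, row SCJ: the section property is invariant under conjugation. -/

set_option autoImplicit false

namespace Pool.ENR

open Pool.Agent.H81.ENG Pool.Agent.H55.NEU

theorem scj_thm : SCJStmt := by
  intro T _ p m σ e ⟨Γ, D, hΓ, hD, hle, hn, hp, h0, x, hx, hxD⟩
  have hrel : (D.comap e.toMonoidHom).relIndex (Γ.comap e.toMonoidHom) = D.relIndex Γ := by
    rw [Subgroup.relIndex_comap, Subgroup.map_comap_eq_self_of_surjective e.surjective]
  have hmem : ∀ (H : Subgroup T) (y : T), y ∈ H.comap e.toMonoidHom ↔ e y ∈ H := fun H y =>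
    Iff.rfl
  have hconj : ∀ y : T, (e * σ * e⁻¹) (e y) = e (σ y) := by
    intro y
    rw [MulAut.mul_apply, MulAut.mul_apply, MulAut.inv_apply_self]
  refine ⟨Γ.comap e.toMonoidHom, D.comap e.toMonoidHom, ?_, ?_, ?_, ?_, ?_, ?_, e⁻¹ x, ?_, ?_⟩
  · intro y
    rw [hmem, hmem, hΓ (e y), hconj]
  · intro y
    rw [hmem, hmem, hD (e y), hconj]
  · intro y hy
    exact hle hy
  · intro g hg y hy
    rw [hmem, map_mul, map_mul, map_inv]
    exact hn (e g) hg (e y) hy
  · rw [hrel]; exact hp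
  · rw [hrel]; exact h0
  · rw [hmem, MulAut.apply_inv_self]; exact hx
  · rw [hmem, map_mul, map_inv, MulAut.apply_inv_self]
    rw [conj_pow, MulAut.mul_apply, MulAut.mul_apply] at hxD
    exact hxD

end Pool.ENR
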