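import Pool.Agent.H36.ENR.Stmts2

/-! Project ENR, row SQP: powers of the shift on twisted periodic sequences. -/

set_option autoImplicit false

namespace Pool.ENR

open Pool.Agent.H81.ENG Pool.Agent.H55.NEU

theorem sqp_thm : SQPStmt := by
  intro T _ τ k n x i
  refine ⟨?_, ?_, ?_⟩
  · induction n generalizing x i with
    | zero => simp
    | succ n ih =>
      have h1 : (i + ((n + 1 : ℕ) : ℤ)) = i + n + 1 := by
        push_cast
        ring
      rw [pow_succ, MulAut.mul_apply, ih, tsh_apply, h1]
  · induction n with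
    | zero => simp
    | succ n ih =>
      have h1 : (i + (k : ℤ) * ((n + 1 : ℕ) : ℤ)) = (i + k * n) + k := by
        push_cast
        ring
      rw [h1, x.2 (i + k * n), ih, pow_succ', MulAut.mul_apply]
  · have h1 : tsh τ k ((tsh τ k)⁻¹ x) = x := by
      rw [← MulAut.mul_apply, mul_inv_cancel, MulAut.one_apply]
    have h2 := tsh_apply τ k ((tsh τ k)⁻¹ x) (i - 1)
    rw [h1, sub_add_cancel] at h2
    exact h2.symm

end Pool.ENR
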